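import Pool.Agent.W387.R.Stm

/-!
# Translations act on the right-angled Artin group
-/

set_option autoImplicit false

namespace Pool.Agent.W503.RA

open Pool.Agent.W387 Pool.Agent.W387.RA

theorem shV_lab (e : Lt) (b c : Bz) : shV b (Sum.inl (lab e c)) = Sum.inl (lab e (b + c)) := by
  show (Sum.inl ⟨tp e, (QuotientAddGroup.mk b : Bz ⧸ Kj (tp e)) +
    QuotientAddGroup.mk (c + ofs e)⟩ : Vx) = Sum.inl ⟨tp e, QuotientAddGroup.mk (b + c + ofs e)⟩
  rw [← QuotientAddGroup.mk_add, add_assoc]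

/-- the translation of the classes of edges -/
def shC (b : Bz) (v : Vc) : Vc := ⟨v.1, QuotientAddGroup.mk b + v.2⟩

theorem shV_inl (b : Bz) (v : Vc) : shV b (Sum.inl v) = Sum.inl (shC b v) := by
  obtain ⟨j, x⟩ := v
  rfl

theorem shC_lab (e : Lt) (b c : Bz) : shC b (lab e c) = lab e (b + c) := by
  have h := shV_lab e b c
  rw [shV_inl] at h
  exact Sum.inl_injective h

theorem adjV_sh (b : Bz) {v w : Vc} (h : adjV v w) : adjV (shC b v) (shC b w) := by
  rcases h with ⟨c, e, f, h1, h2, h3⟩ | ⟨c, e, f, h1, h2, h3⟩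
  · refine Or.inl ⟨b + c, e, f, h1, ?_, ?_⟩
    · rw [h2, shC_lab]
    · rw [h3, shC_lab]
  · refine Or.inr ⟨b + c, e, f, h1, ?_, ?_⟩
    · rw [h2, shC_lab, add_sub_assoc]
    · rw [h3, shC_lab, add_sub_assoc]

theorem adjT_sh (b : Bz) {v : Vc} {c : Bz ⧸ KT} (h : adjT v c) :
    adjT (shC b v) (QuotientAddGroup.mk b + c) := by
  obtain ⟨a, e, h1, h2, h3⟩ := h
  refine ⟨b + a, e, h1, ?_, ?_⟩
  · rw [h2, shC_lab]
  · rw [h3, ← QuotientAddGroup.mk_add]

theorem adjR_sh (b : Bz) : ∀ {v w : Vx}, adjR v w → adjR (shV b v) (shV b w)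
  | Sum.inl v, Sum.inl w, h => by
    rw [shV_inl, shV_inl]
    exact adjV_sh b h
  | Sum.inl v, Sum.inr (Sum.inl c), h => by
    rw [shV_inl]
    exact adjT_sh b h
  | Sum.inl v, Sum.inr (Sum.inr (Sum.inl _)), _ => by
    rw [shV_inl]
    exact trivial
  | Sum.inl v, Sum.inr (Sum.inr (Sum.inr _)), _ => by
    rw [shV_inl]
    exact trivial
  | Sum.inr (Sum.inl _), Sum.inr (Sum.inr (Sum.inl _)), _ => trivial
  | Sum.inr (Sum.inr (Sum.inl _)), Sum.inr (Sum.inr (Sum.inl _)), h => h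
  | Sum.inr (Sum.inl _), Sum.inl _, h => h.elim
  | Sum.inr (Sum.inl _), Sum.inr (Sum.inl _), h => h.elim
  | Sum.inr (Sum.inl _), Sum.inr (Sum.inr (Sum.inr _)), h => h.elim
  | Sum.inr (Sum.inr (Sum.inl _)), Sum.inl _, h => h.elim
  | Sum.inr (Sum.inr (Sum.inl _)), Sum.inr (Sum.inl _), h => h.elim
  | Sum.inr (Sum.inr (Sum.inl _)), Sum.inr (Sum.inr (Sum.inr _)), h => h.elim
  | Sum.inr (Sum.inr (Sum.inr _)), Sum.inl _, h => h.elim
  | Sum.inr (Sum.inr (Sum.inr _)), Sum.inr (Sum.inl _), h => h.elim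
  | Sum.inr (Sum.inr (Sum.inr _)), Sum.inr (Sum.inr (Sum.inl _)), h => h.elim
  | Sum.inr (Sum.inr (Sum.inr _)), Sum.inr (Sum.inr (Sum.inr _)), h => h.elim

theorem shV_add (b c : Bz) (v : Vx) : shV (b + c) v = shV b (shV c v) := by
  rcases v with ⟨j, x⟩ | x | x
  · show (Sum.inl ⟨j, (QuotientAddGroup.mk (b + c) : Bz ⧸ Kj j) + x⟩ : Vx) =
      Sum.inl ⟨j, QuotientAddGroup.mk b + (QuotientAddGroup.mk c + x)⟩
    rw [QuotientAddGroup.mk_add, add_assoc]
  · show (Sum.inr (Sum.inl ((QuotientAddGroup.mk (b + c) : Bz ⧸ KT) + x)) : Vx) =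
      Sum.inr (Sum.inl (QuotientAddGroup.mk b + (QuotientAddGroup.mk c + x)))
    rw [QuotientAddGroup.mk_add, add_assoc]
  · rfl

theorem shV_zero (v : Vx) : shV 0 v = v := by
  rcases v with ⟨j, x⟩ | x | x
  · show (Sum.inl ⟨j, (QuotientAddGroup.mk (0 : Bz) : Bz ⧸ Kj j) + x⟩ : Vx) = Sum.inl ⟨j, x⟩
    rw [QuotientAddGroup.mk_zero, zero_add]
  · show (Sum.inr (Sum.inl ((QuotientAddGroup.mk (0 : Bz) : Bz ⧸ KT) + x)) : Vx) =
      Sum.inr (Sum.inl x)
    rw [QuotientAddGroup.mk_zero, zero_add]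
  · rfl

theorem shV_neg (b : Bz) (v : Vx) : shV (-b) (shV b v) = v := by
  rw [← shV_add, neg_add_cancel, shV_zero]

theorem shV_injective (b : Bz) : Function.Injective (shV b) :=
  Function.LeftInverse.injective (shV_neg b)

theorem adj_sh (b : Bz) {v w : Vx} (h : Gx.Adj v w) : Gx.Adj (shV b v) (shV b w) := by
  unfold Gx at h ⊢
  rw [SimpleGraph.fromRel_adj] at h ⊢
  refine ⟨fun h1 => h.1 (shV_injective b h1), ?_⟩
  rcases h.2 with h2 | h2
  · exact Or.inl (adjR_sh b h2)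
  · exact Or.inr (adjR_sh b h2)

/-- the endomorphism of the right-angled Artin group -/
noncomputable def end0 (b : Bz) : D →* D :=
  PresentedGroup.toGroup (rels := raagRels Gx) (f := fun v => (PresentedGroup.of (shV b v) : D))
    (by
      rintro r ⟨v, w, h, rfl⟩
      rw [map_mul, map_mul, map_mul, map_inv, map_inv, FreeGroup.lift_apply_of,
        FreeGroup.lift_apply_of]
      have h1 : FreeGroup.of (shV b v) * FreeGroup.of (shV b w) * (FreeGroup.of (shV b v))⁻¹ *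
          (FreeGroup.of (shV b w))⁻¹ ∈ raagRels Gx := ⟨_, _, adj_sh b h, rfl⟩
      exact PresentedGroup.one_of_mem h1)

theorem end0_of (b : Bz) (v : Vx) :
    end0 b (PresentedGroup.of v) = PresentedGroup.of (shV b v) := by
  unfold end0
  exact PresentedGroup.toGroup.of _

theorem end0_add (b c : Bz) : end0 (b + c) = (end0 b).comp (end0 c) := by
  refine PresentedGroup.ext fun v => ?_
  rw [MonoidHom.comp_apply, end0_of, end0_of, end0_of, shV_add]

theorem end0_zero : end0 0 = MonoidHom.id D := by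
  refine PresentedGroup.ext fun v => ?_
  rw [end0_of, shV_zero, MonoidHom.id_apply]

/-- the automorphism of the right-angled Artin group -/
noncomputable def aut0 (b : Bz) : MulAut D :=
  MonoidHom.toMulEquiv (end0 b) (end0 (-b))
    (by rw [← end0_add, neg_add_cancel, end0_zero]) (by rw [← end0_add, add_neg_cancel, end0_zero])

theorem aut0_apply (b : Bz) (x : D) : aut0 b x = end0 b x := rfl

theorem act : StmAct := by
  refine ⟨MonoidHom.mk' (fun b => aut0 (Multiplicative.toAdd b)) ?_, ?_⟩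
  · intro b c
    refine MulEquiv.ext fun x => ?_
    rw [MulAut.mul_apply, aut0_apply, aut0_apply, aut0_apply, toAdd_mul, end0_add,
      MonoidHom.comp_apply]
  · intro b v
    exact end0_of b v

end Pool.Agent.W503.RA
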