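import Pool.Agent.W438.RA.Defs

set_option autoImplicit false

open MeasureTheory Set Filter Topology Metric
open scoped ENNReal NNReal

/-! # RA-POL: ball/cone expansion in hyperboloid polar coordinates -/

namespace Pool.Agent.W503.RA

/-! ## one-dimensional part -/

/-- antiderivative of `s^5 / √(1+s²)` as a function of `v = √(1+s²)`, plus `8/15` -/
noncomputable def Q0 (v : ℝ) : ℝ := v ^ 5 / 5 - 2 * v ^ 3 / 3 + v

lemma Q0_split (α β D U R : ℝ) (hR : R ^ 2 = U ^ 2 - D) :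
    Q0 (α * U + β * R) =
      ((α ^ 5 / 5 + 2 * α ^ 3 * β ^ 2 + α * β ^ 4) * U ^ 5 +
        (-2 * α ^ 3 * β ^ 2 * D - 2 * α * β ^ 4 * D - 2 / 3 * α ^ 3 - 2 * α * β ^ 2) * U ^ 3 +
        (α * β ^ 4 * D ^ 2 + 2 * α * β ^ 2 * D + α) * U) +
      R * ((α ^ 4 * β + 2 * α ^ 2 * β ^ 3 + β ^ 5 / 5) * U ^ 4 +
        (-2 * α ^ 2 * β ^ 3 * D - 2 / 5 * β ^ 5 * D - 2 * α ^ 2 * β - 2 / 3 * β ^ 3) * U ^ 2 +
        (β ^ 5 * D ^ 2 / 5 + 2 / 3 * β ^ 3 * D + β)) := by
  unfold Q0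
  linear_combination ((1 / 5) * (10 * α ^ 3 * β ^ 2 * U ^ 3 + 10 * α ^ 2 * β ^ 3 * U ^ 2 * R +
    5 * α * β ^ 4 * U * (R ^ 2 + (U ^ 2 - D)) + β ^ 5 * R * (R ^ 2 + (U ^ 2 - D))) -
    2 / 3 * (3 * α * β ^ 2 * U + β ^ 3 * R)) * hR

lemma sqrt_approx (x t : ℝ) (hx : 0 ≤ x) (hx1 : x ≤ 1) (ht : 0 ≤ t) (h : t ^ 2 = 1 - x) :
    |t - (1 - x / 2 - x ^ 2 / 8)| ≤ x ^ 3 := by
  set m := 1 - x / 2 - x ^ 2 / 8 with hm
  have hm1 : 3 / 8 ≤ m := by nlinarith
  have e : (m - t) * (m + t) = x ^ 3 / 8 + x ^ 4 / 64 := by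
    rw [hm]
    linear_combination (-1 : ℝ) * h
  have h3 : 0 ≤ x ^ 3 := by positivity
  have h4 : x ^ 4 ≤ x ^ 3 := by nlinarith
  have h5 : 0 ≤ x ^ 4 := by positivity
  have hs : 0 < m + t := by linarith
  have h6 : 0 ≤ m - t := by
    by_contra hc
    push Not at hc
    nlinarith
  rw [abs_le]
  constructor
  · nlinarith
  · linarith

/-- coefficients -/
noncomputable def p4 (α β : ℝ) : ℝ := α ^ 4 * β + 2 * α ^ 2 * β ^ 3 + β ^ 5 / 5
noncomputable def p2 (α β D : ℝ) : ℝ :=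
  -2 * α ^ 2 * β ^ 3 * D - 2 / 5 * β ^ 5 * D - 2 * α ^ 2 * β - 2 / 3 * β ^ 3
noncomputable def p0 (β D : ℝ) : ℝ := β ^ 5 * D ^ 2 / 5 + 2 / 3 * β ^ 3 * D + β
noncomputable def fa (α β : ℝ) : ℝ := (α ^ 5 / 5 + 2 * α ^ 3 * β ^ 2 + α * β ^ 4) + p4 α β
noncomputable def fb (α β D : ℝ) : ℝ :=
  (-2 * α ^ 3 * β ^ 2 * D - 2 * α * β ^ 4 * D - 2 / 3 * α ^ 3 - 2 * α * β ^ 2) + p2 α β D
    - p4 α β * D / 2
noncomputable def fd (α β D : ℝ) : ℝ :=
  (α * β ^ 4 * D ^ 2 + 2 * α * β ^ 2 * D + α) + p0 β D - p2 α β D * D / 2 - p4 α β * D ^ 2 / 8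

lemma expansion (α β D U R P B : ℝ) (hR0 : 0 ≤ R) (hR : R ^ 2 = U ^ 2 - D) (hU : 1 ≤ U)
    (hD : 0 ≤ D) (hDU : D ≤ U ^ 2) (hDB : D ≤ B) (h4 : |p4 α β| ≤ P) (h2 : |p2 α β D| ≤ P)
    (h0 : |p0 β D| ≤ P) :
    |Q0 (α * U + β * R) - (fa α β * U ^ 5 + fb α β D * U ^ 3 + fd α β D * U)| ≤
      P * (B + 2 * B ^ 2 + 3 * B ^ 3) / U := by
  have hU0 : 0 < U := by linarith
  have hP : 0 ≤ P := le_trans (abs_nonneg _) h4
  have hB : 0 ≤ B := le_trans hD hDB
  set T : ℝ := U - D / (2 * U) - D ^ 2 / (8 * U ^ 3) with hT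
  have e1 : Q0 (α * U + β * R) - (fa α β * U ^ 5 + fb α β D * U ^ 3 + fd α β D * U) =
      -(p0 β D * D / (2 * U)) - p2 α β D * D ^ 2 / (8 * U) - p0 β D * D ^ 2 / (8 * U ^ 3) +
      (R - T) * (p4 α β * U ^ 4 + p2 α β D * U ^ 2 + p0 β D) := by
    rw [Q0_split α β D U R hR]
    have e : (R - T) = (R - U) + D / (2 * U) + D ^ 2 / (8 * U ^ 3) := by rw [hT]; ring
    rw [e]
    unfold fa fb fd
    change _ + R * (p4 α β * U ^ 4 + p2 α β D * U ^ 2 + p0 β D) - _ = _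
    field_simp
    ring
  -- bound of R - T
  have hx : |R - T| ≤ B ^ 3 / U ^ 5 := by
    have h1 := sqrt_approx (D / U ^ 2) (R / U) (by positivity)
      (by rw [div_le_one (by positivity)]; exact hDU) (by positivity)
      (by rw [div_pow, hR]; field_simp)
    have e2 : R - T = U * (R / U - (1 - D / U ^ 2 / 2 - (D / U ^ 2) ^ 2 / 8)) := by
      rw [hT]; field_simp
    rw [e2, abs_mul, abs_of_pos hU0]
    calc U * |R / U - (1 - D / U ^ 2 / 2 - (D / U ^ 2) ^ 2 / 8)| ≤ U * (D / U ^ 2) ^ 3 :=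
          mul_le_mul_of_nonneg_left h1 hU0.le
      _ = D ^ 3 / U ^ 5 := by field_simp
      _ ≤ B ^ 3 / U ^ 5 := by gcongr
  rw [e1]
  have b1 : |-(p0 β D * D / (2 * U))| ≤ P * B / U := by
    rw [abs_neg, abs_div, abs_mul, abs_of_nonneg hD, abs_of_pos (by positivity : 0 < 2 * U),
      div_le_div_iff₀ (by positivity) hU0]
    have : |p0 β D| * D ≤ P * B := mul_le_mul h0 hDB hD hP
    nlinarith [mul_nonneg hP hB]
  have b2 : |p2 α β D * D ^ 2 / (8 * U)| ≤ P * B ^ 2 / U := by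
    rw [abs_div, abs_mul, abs_of_nonneg (by positivity : 0 ≤ D ^ 2),
      abs_of_pos (by positivity : 0 < 8 * U), div_le_div_iff₀ (by positivity) hU0]
    have : |p2 α β D| * D ^ 2 ≤ P * B ^ 2 :=
      mul_le_mul h2 (pow_le_pow_left₀ hD hDB 2) (by positivity) hP
    nlinarith [mul_nonneg hP (sq_nonneg B)]
  have b3 : |p0 β D * D ^ 2 / (8 * U ^ 3)| ≤ P * B ^ 2 / U := by
    rw [abs_div, abs_mul, abs_of_nonneg (by positivity : 0 ≤ D ^ 2),
      abs_of_pos (by positivity : 0 < 8 * U ^ 3), div_le_div_iff₀ (by positivity) hU0]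
    have h5 : |p0 β D| * D ^ 2 ≤ P * B ^ 2 :=
      mul_le_mul h0 (pow_le_pow_left₀ hD hDB 2) (by positivity) hP
    have h6 : U ≤ 8 * U ^ 3 := by nlinarith [mul_pos hU0 hU0, mul_self_nonneg (U - 1)]
    exact mul_le_mul h5 h6 hU0.le (by positivity)
  have b4 : |(R - T) * (p4 α β * U ^ 4 + p2 α β D * U ^ 2 + p0 β D)| ≤ 3 * P * B ^ 3 / U := by
    rw [abs_mul]
    have h7 : |p4 α β * U ^ 4 + p2 α β D * U ^ 2 + p0 β D| ≤ 3 * P * U ^ 4 := by
      have u2 : U ^ 2 ≤ U ^ 4 := pow_le_pow_right₀ hU (by norm_num)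
      have u0 : 1 ≤ U ^ 4 := one_le_pow₀ hU
      calc _ ≤ |p4 α β * U ^ 4| + |p2 α β D * U ^ 2| + |p0 β D| := abs_add_three _ _ _
        _ ≤ P * U ^ 4 + P * U ^ 4 + P * U ^ 4 := by
          rw [abs_mul, abs_mul, abs_of_nonneg (by positivity : 0 ≤ U ^ 4),
            abs_of_nonneg (by positivity : 0 ≤ U ^ 2)]
          gcongr
          nlinarith
        _ = 3 * P * U ^ 4 := by ring
    calc |R - T| * |p4 α β * U ^ 4 + p2 α β D * U ^ 2 + p0 β D| ≤
          (B ^ 3 / U ^ 5) * (3 * P * U ^ 4) := mul_le_mul hx h7 (abs_nonneg _) (by positivity)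
      _ = 3 * P * B ^ 3 / U := by field_simp
  calc _ ≤ |-(p0 β D * D / (2 * U)) - p2 α β D * D ^ 2 / (8 * U) -
          p0 β D * D ^ 2 / (8 * U ^ 3)| +
        |(R - T) * (p4 α β * U ^ 4 + p2 α β D * U ^ 2 + p0 β D)| := abs_add_le _ _
    _ ≤ (|-(p0 β D * D / (2 * U))| + |p2 α β D * D ^ 2 / (8 * U)| +
          |p0 β D * D ^ 2 / (8 * U ^ 3)|) + 3 * P * B ^ 3 / U := by
        refine add_le_add ?_ b4
        refine le_trans (abs_sub _ _) ?_
        gcongr
        exact abs_sub _ _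
    _ ≤ (P * B / U + P * B ^ 2 / U + P * B ^ 2 / U) + 3 * P * B ^ 3 / U := by gcongr
    _ = P * (B + 2 * B ^ 2 + 3 * B ^ 3) / U := by ring

/-- the radial condition -/
lemma cond (c y U s : ℝ) (hc : 0 < c) (hD : 1 ≤ c ^ 2 - y ^ 2) (hU : c ≤ U) (hs : 0 < s) :
    c * Real.sqrt (1 + s ^ 2) - y * s ≤ U ↔
      s ≤ (y * U + c * Real.sqrt (U ^ 2 - (c ^ 2 - y ^ 2))) / (c ^ 2 - y ^ 2) := by
  set D := c ^ 2 - y ^ 2 with hDdef
  set R := Real.sqrt (U ^ 2 - D) with hRdef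
  have hD0 : 0 < D := by linarith
  have hUc : c ^ 2 ≤ U ^ 2 := pow_le_pow_left₀ hc.le hU 2
  have hR0 : 0 ≤ R := Real.sqrt_nonneg _
  have hR2 : R ^ 2 = U ^ 2 - D := Real.sq_sqrt (by nlinarith [sq_nonneg y])
  have hU0 : 0 < U := by linarith
  set v := Real.sqrt (1 + s ^ 2) with hv
  have hv0 : 0 < v := Real.sqrt_pos.2 (by positivity)
  have hv2 : v ^ 2 = 1 + s ^ 2 := Real.sq_sqrt (by positivity)
  have hvs : s < v := by
    apply lt_of_pow_lt_pow_left₀ 2 hv0.le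
    linarith
  -- c R ≥ |y| U
  have hcR : |y| * U ≤ c * R := by
    refine (sq_le_sq₀ (by positivity) (by positivity)).1 ?_
    rw [mul_pow, mul_pow, sq_abs, hR2]
    nlinarith [mul_nonneg hD0.le (sub_nonneg.2 hUc)]
  have hyU : y * U ≤ c * R := le_trans (mul_le_mul_of_nonneg_right (le_abs_self y) hU0.le) hcR
  have hfac : c ^ 2 * (1 + s ^ 2) - (U + y * s) ^ 2 =
      (D * s - (y * U + c * R)) * (D * s - (y * U - c * R)) / D := by
    rw [eq_div_iff hD0.ne']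
    have : c ^ 2 = D + y ^ 2 := by rw [hDdef]; ring
    linear_combination (c ^ 2 : ℝ) * hR2 + (D * s ^ 2 + U ^ 2) * this
  have hpos : 0 < D * s - (y * U - c * R) := by nlinarith [mul_pos hD0 hs]
  have hys : |y| < c := by
    apply lt_of_pow_lt_pow_left₀ 2 hc.le
    rw [sq_abs]; linarith
  rw [le_div_iff₀ hD0]
  constructor
  · intro h
    have h1 : c * v ≤ U + y * s := by linarith
    have h2 : (c * v) ^ 2 ≤ (U + y * s) ^ 2 := pow_le_pow_left₀ (by positivity) h1 2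
    rw [mul_pow, hv2] at h2
    have h3 : (D * s - (y * U + c * R)) * (D * s - (y * U - c * R)) / D ≤ 0 := by
      rw [← hfac]; linarith
    have h4 : (D * s - (y * U + c * R)) * (D * s - (y * U - c * R)) ≤ 0 := by
      by_contra hcon
      push Not at hcon
      have := div_pos hcon hD0
      linarith
    have h5 : D * s - (y * U + c * R) ≤ 0 := by
      by_contra hcon
      push Not at hcon
      have := mul_pos hcon hpos
      linarith
    linarith
  · intro h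
    have h3 : (D * s - (y * U + c * R)) * (D * s - (y * U - c * R)) / D ≤ 0 := by
      apply div_nonpos_of_nonpos_of_nonneg _ hD0.le
      apply mul_nonpos_of_nonpos_of_nonneg _ hpos.le
      linarith
    rw [← hfac] at h3
    have h4 : (c * v) ^ 2 ≤ (U + y * s) ^ 2 := by rw [mul_pow, hv2]; linarith
    have h5 : |c * v| ≤ |U + y * s| := sq_le_sq.1 h4
    rw [abs_of_pos (by positivity)] at h5
    rcases abs_cases (U + y * s) with ⟨e, _⟩ | ⟨e, _⟩
    · rw [e] at h5; linarith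
    · rw [e] at h5
      exfalso
      have h6 : -(y * s) ≤ c * s := by
        have : -y ≤ c := le_trans (neg_le_abs y) hys.le
        nlinarith
      have h7 : c * s < c * v := mul_lt_mul_of_pos_left hvs hc
      linarith

lemma sm_facts (c y U : ℝ) (hc : 0 < c) (hD : 1 ≤ c ^ 2 - y ^ 2) (hU : c ≤ U) :
    0 ≤ (y * U + c * Real.sqrt (U ^ 2 - (c ^ 2 - y ^ 2))) / (c ^ 2 - y ^ 2) ∧
    Real.sqrt (1 + ((y * U + c * Real.sqrt (U ^ 2 - (c ^ 2 - y ^ 2))) / (c ^ 2 - y ^ 2)) ^ 2) =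
      c / (c ^ 2 - y ^ 2) * U + y / (c ^ 2 - y ^ 2) * Real.sqrt (U ^ 2 - (c ^ 2 - y ^ 2)) := by
  set D := c ^ 2 - y ^ 2 with hDdef
  set R := Real.sqrt (U ^ 2 - D) with hRdef
  have hD0 : 0 < D := by linarith
  have hUc : c ^ 2 ≤ U ^ 2 := pow_le_pow_left₀ hc.le hU 2
  have hR0 : 0 ≤ R := Real.sqrt_nonneg _
  have hR2 : R ^ 2 = U ^ 2 - D := Real.sq_sqrt (by nlinarith [sq_nonneg y])
  have hU0 : 0 < U := by linarith
  have hcR : |y| * U ≤ c * R := by
    refine (sq_le_sq₀ (by positivity) (by positivity)).1 ?_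
    rw [mul_pow, mul_pow, sq_abs, hR2]
    nlinarith [mul_nonneg hD0.le (sub_nonneg.2 hUc)]
  have hyU : -(y * U) ≤ c * R := by
    have := mul_le_mul_of_nonneg_right (neg_le_abs y) hU0.le
    linarith
  have hys : |y| < c := by
    apply lt_of_pow_lt_pow_left₀ 2 hc.le
    rw [sq_abs]; linarith
  have hRU : R ≤ U := by
    refine (sq_le_sq₀ hR0 hU0.le).1 ?_
    linarith
  refine ⟨div_nonneg (by linarith) hD0.le, ?_⟩
  have hnn : 0 ≤ c / D * U + y / D * R := by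
    have e : c / D * U + y / D * R = (c * U + y * R) / D := by ring
    rw [e]
    apply div_nonneg _ hD0.le
    have h1 : -(y * R) ≤ |y| * R := by
      have := mul_le_mul_of_nonneg_right (neg_le_abs y) hR0
      linarith
    have h2 : |y| * R ≤ c * U := mul_le_mul hys.le hRU hR0 hc.le
    linarith
  rw [Real.sqrt_eq_iff_eq_sq (by positivity) hnn]
  have hc2 : c ^ 2 = D + y ^ 2 := by rw [hDdef]; ring
  field_simp
  linear_combination (-(y ^ 2) + c ^ 2) * hR2 + (-(U ^ 2) + (U ^ 2 - D)) * hc2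

/-! ## polar coordinates -/

abbrev E := EuclideanSpace ℝ (Fin 6)
abbrev Sp := sphere (0 : E) 1

/-- the surface measure of the unit sphere of `ℝ⁶` -/
noncomputable abbrev σ : Measure Sp := (volume : Measure E).toSphere

theorem polar {f : E → ℝ≥0∞} (hf : Measurable f) :
    ∫⁻ x, f x = ∫⁻ ω : Sp, ∫⁻ r in Ioi (0 : ℝ), ENNReal.ofReal (r ^ 5) * f (r • (ω : E))
      ∂volume ∂σ := by
  have e1 : ∫⁻ x : E, f x =
      ∫⁻ z : ({(0 : E)}ᶜ : Set E), f z.1 ∂((volume : Measure E).comap (↑)) := by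
    rw [lintegral_subtype_comap (measurableSet_singleton _).compl f, restrict_compl_singleton]
  rw [e1]
  have e2 := (volume : Measure E).measurePreserving_homeomorphUnitSphereProd.lintegral_comp_emb
    (Homeomorph.measurableEmbedding _)
    (fun p : Sp × Ioi (0 : ℝ) => f ((p.2 : ℝ) • (p.1 : E)))
  have e3 : ∀ z : ({(0 : E)}ᶜ : Set E),
      (((homeomorphUnitSphereProd E) z).2 : ℝ) • (((homeomorphUnitSphereProd E) z).1 : E) = z := by
    intro z
    have hx0 : ‖(z : E)‖ ≠ 0 := norm_ne_zero_iff.2 z.2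
    rw [homeomorphUnitSphereProd_apply_snd_coe, homeomorphUnitSphereProd_apply_fst_coe,
      smul_smul, mul_inv_cancel₀ hx0, one_smul]
  simp only [e3] at e2
  rw [e2]
  have hm2 : Measurable (fun p : Sp × Ioi (0 : ℝ) => f ((p.2 : ℝ) • (p.1 : E))) := by
    apply hf.comp
    have hc : Continuous (fun q : Sp × Ioi (0 : ℝ) => (q.2 : ℝ) • (q.1 : E)) := by fun_prop
    exact hc.measurable
  rw [lintegral_prod _ hm2.aemeasurable]
  have hd : Module.finrank ℝ E = 6 := by simp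
  rw [hd]
  refine lintegral_congr fun ω => ?_
  have hm3 : Measurable (fun r : ℝ => f (r • (ω : E))) := by
    apply hf.comp
    have hc : Continuous (fun r : ℝ => r • (ω : E)) := by fun_prop
    exact hc.measurable
  change ∫⁻ r : Ioi (0 : ℝ), f ((r : ℝ) • (ω : E)) ∂(Measure.volumeIoiPow 5) = _
  unfold Measure.volumeIoiPow
  have hm4 : Measurable (fun r : Ioi (0 : ℝ) => f ((r : ℝ) • (ω : E))) :=
    hm3.comp measurable_subtype_coe
  rw [lintegral_withDensity_eq_lintegral_mul _ (by fun_prop) hm4]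
  exact lintegral_subtype_comap (μ := (volume : Measure ℝ)) measurableSet_Ioi
    (fun r : ℝ => ENNReal.ofReal (r ^ 5) * f (r • (ω : E)))

/-- the radial integral -/
lemma radial_int (S : ℝ) (hS : 0 ≤ S) :
    ∫⁻ r in Ioc 0 S, ENNReal.ofReal (r ^ 5) * ENNReal.ofReal (1 / Real.sqrt (1 + r ^ 2)) =
      ENNReal.ofReal (Q0 (Real.sqrt (1 + S ^ 2)) - 8 / 15) ∧
    0 ≤ Q0 (Real.sqrt (1 + S ^ 2)) - 8 / 15 := by
  have hder : ∀ r ∈ uIcc 0 S, HasDerivAt (fun r : ℝ => Q0 (Real.sqrt (1 + r ^ 2)))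
      (r ^ 5 * (1 / Real.sqrt (1 + r ^ 2))) r := by
    intro r _
    have hp : 0 < 1 + r ^ 2 := by positivity
    have h1 : HasDerivAt (fun r : ℝ => 1 + r ^ 2) (2 * r) r := by
      simpa using ((hasDerivAt_pow 2 r).const_add 1)
    have h2 := h1.sqrt hp.ne'
    have h3 : ∀ v : ℝ, HasDerivAt Q0 (v ^ 4 - 2 * v ^ 2 + 1) v := by
      intro v
      unfold Q0
      have a1 := (hasDerivAt_pow 5 v).div_const 5
      have a2 := ((hasDerivAt_pow 3 v).const_mul 2).div_const 3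
      have := (a1.sub a2).add (hasDerivAt_id v)
      refine this.congr_deriv ?_
      norm_num
      ring
    have h4 := (h3 (Real.sqrt (1 + r ^ 2))).comp r h2
    refine h4.congr_deriv ?_
    have hv2 : Real.sqrt (1 + r ^ 2) ^ 2 = 1 + r ^ 2 := Real.sq_sqrt hp.le
    have hv : 0 < Real.sqrt (1 + r ^ 2) := Real.sqrt_pos.2 hp
    have e : Real.sqrt (1 + r ^ 2) ^ 4 - 2 * Real.sqrt (1 + r ^ 2) ^ 2 + 1 = r ^ 4 := by
      have : Real.sqrt (1 + r ^ 2) ^ 4 = (Real.sqrt (1 + r ^ 2) ^ 2) ^ 2 := by ring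
      rw [this, hv2]; ring
    rw [e]
    field_simp
  have hcont : Continuous (fun r : ℝ => r ^ 5 * (1 / Real.sqrt (1 + r ^ 2))) := by
    have : ∀ r : ℝ, Real.sqrt (1 + r ^ 2) ≠ 0 := fun r =>
      (Real.sqrt_pos.2 (by positivity)).ne'
    fun_prop (disch := assumption)
  have h1 := intervalIntegral.integral_eq_sub_of_hasDerivAt hder (hcont.intervalIntegrable 0 S)
  have h0 : Q0 (Real.sqrt (1 + (0:ℝ) ^ 2)) = 8 / 15 := by
    norm_num [Q0]
  rw [h0, intervalIntegral.integral_of_le hS] at h1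
  have hnn : 0 ≤ᵐ[volume.restrict (Ioc 0 S)] fun r : ℝ => r ^ 5 * (1 / Real.sqrt (1 + r ^ 2)) := by
    filter_upwards [ae_restrict_mem measurableSet_Ioc] with r hr
    have : 0 < r := hr.1
    simp only [Pi.zero_apply]
    positivity
  have hi : IntegrableOn (fun r : ℝ => r ^ 5 * (1 / Real.sqrt (1 + r ^ 2))) (Ioc 0 S) :=
    hcont.integrableOn_Ioc
  constructor
  · rw [← h1, ofReal_integral_eq_lintegral_ofReal hi hnn]
    refine setLIntegral_congr_fun measurableSet_Ioc fun r hr => ?_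
    have : 0 < r := hr.1
    rw [ENNReal.ofReal_mul (by positivity)]
  · rw [← h1]
    exact integral_nonneg_of_ae hnn

lemma radial_one :
    ∫⁻ r in Ioo (0 : ℝ) 1, ENNReal.ofReal (r ^ 5) = ENNReal.ofReal (1 / 6) := by
  have h1 : ∫ r in (0:ℝ)..1, r ^ 5 = 1 / 6 := by
    rw [integral_pow]; norm_num
  rw [intervalIntegral.integral_of_le zero_le_one, integral_Ioc_eq_integral_Ioo] at h1
  rw [← h1, ofReal_integral_eq_lintegral_ofReal]
  · exact (continuous_pow 5).integrableOn_Ioc.mono_set Ioo_subset_Ioc_self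
  · filter_upwards [ae_restrict_mem measurableSet_Ioo] with r hr
    exact pow_nonneg hr.1.le _

section
variable (c : ℝ) (w : Fin 6 → ℝ) (C : Set (Fin 6 → ℝ))

/-- inner product of the direction with `w` -/
noncomputable def yy (ω : Sp) : ℝ := ∑ i, w i * (ω : E) i

/-- directions in the cone -/
def Cd : Set Sp := {ω | (ω : E).ofLp ∈ C}

lemma ofLp_cont : Continuous (fun ω : Sp => (ω : E).ofLp) := by
  exact (PiLp.continuous_ofLp 2 _).comp continuous_subtype_val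

lemma yy_cont : Continuous (yy w) := by
  unfold yy
  refine continuous_finsetSum _ fun i _ => ?_
  exact continuous_const.mul ((continuous_apply i).comp ofLp_cont)

lemma sp_sum (ω : Sp) : ∑ i, (ω : E) i ^ 2 = 1 := by
  have h : ‖(ω : E)‖ = 1 := by simp
  have := EuclideanSpace.real_norm_sq_eq (ω : E)
  rw [← this, h]; norm_num

lemma yy_D (hcw : c ^ 2 = 1 + ∑ i, w i ^ 2) (ω : Sp) : 1 ≤ c ^ 2 - yy w ω ^ 2 := by
  have h := Finset.sum_mul_sq_le_sq_mul_sq Finset.univ w (fun i => (ω : E) i)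
  rw [sp_sum, mul_one] at h
  unfold yy
  linarith

lemma Cd_meas (hC : MeasurableSet C) : MeasurableSet (Cd C) := ofLp_cont.measurable hC

/-- change to polar coordinates for functions on `Fin 6 → ℝ` -/
lemma polar' {g : (Fin 6 → ℝ) → ℝ≥0∞} (hg : Measurable g) :
    ∫⁻ x, g x = ∫⁻ ω : Sp, ∫⁻ r in Ioi (0 : ℝ), ENNReal.ofReal (r ^ 5) *
      g (r • (ω : E).ofLp) ∂volume ∂σ := by
  have h1 := (PiLp.volume_preserving_ofLp (Fin 6)).lintegral_comp hg
  rw [← h1]
  have h2 : Measurable (fun x : E => g x.ofLp) :=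
    hg.comp (PiLp.volume_preserving_ofLp (Fin 6)).measurable
  exact polar h2

lemma hm_eq (hc : 0 < c) (hcw : c ^ 2 = 1 + ∑ i, w i ^ 2) (hC : MeasurableSet C)
    (hcone : ∀ (s : ℝ) (z : Fin 6 → ℝ), 0 < s → (s • z ∈ C ↔ z ∈ C)) (U : ℝ) (hU : c ≤ U) :
    Pool.Agent.W438.RA.hm {z | z ∈ C ∧ c * Real.sqrt (1 + ∑ i, z i ^ 2) - ∑ i, w i * z i ≤ U} =
      ∫⁻ ω in Cd C, ENNReal.ofReal (Q0 (c / (c ^ 2 - yy w ω ^ 2) * U +
        yy w ω / (c ^ 2 - yy w ω ^ 2) * Real.sqrt (U ^ 2 - (c ^ 2 - yy w ω ^ 2))) - 8 / 15) ∂σ := by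
  set A : Set (Fin 6 → ℝ) :=
    {z | z ∈ C ∧ c * Real.sqrt (1 + ∑ i, z i ^ 2) - ∑ i, w i * z i ≤ U} with hAdef
  have hA : MeasurableSet A := by
    exact hC.inter (measurableSet_le (f := fun z : Fin 6 → ℝ =>
      c * Real.sqrt (1 + ∑ i, z i ^ 2) - ∑ i, w i * z i) (g := fun _ => U) (by fun_prop)
      measurable_const)
  have hgm : Measurable (fun z : Fin 6 → ℝ => ENNReal.ofReal (1 / Real.sqrt (1 + ∑ j, z j ^ 2))) := by
    fun_prop
  unfold Pool.Agent.W438.RA.hm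
  rw [withDensity_apply _ hA, ← lintegral_indicator hA, polar' (hgm.indicator hA),
    ← lintegral_indicator (Cd_meas C hC)]
  refine lintegral_congr fun ω => ?_
  by_cases hω : ω ∈ Cd C
  · rw [indicator_of_mem hω]
    obtain ⟨f1, f2⟩ := sm_facts c (yy w ω) U hc (yy_D c w hcw ω) hU
    rw [← f2]
    rw [← (radial_int _ f1).1]
    have hcd := fun r (hr : 0 < r) => cond c (yy w ω) U r hc (yy_D c w hcw ω) hU hr
    set S := (yy w ω * U + c * Real.sqrt (U ^ 2 - (c ^ 2 - yy w ω ^ 2))) / (c ^ 2 - yy w ω ^ 2)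
      with hSdef
    have e : ∫⁻ r in Ioc 0 S, ENNReal.ofReal (r ^ 5) * ENNReal.ofReal (1 / Real.sqrt (1 + r ^ 2)) =
        ∫⁻ r in Ioi 0, (Iic S).indicator (fun r : ℝ => ENNReal.ofReal (r ^ 5) *
          ENNReal.ofReal (1 / Real.sqrt (1 + r ^ 2))) r := by
      rw [lintegral_indicator measurableSet_Iic, Measure.restrict_restrict measurableSet_Iic,
        Iic_inter_Ioi]
    rw [e]
    refine setLIntegral_congr_fun measurableSet_Ioi fun r hr => ?_
    have hr0 : 0 < r := hr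
    have g1 : ∑ i, (r • (ω : E).ofLp) i ^ 2 = r ^ 2 := by
      have : ∑ i, (r • (ω : E).ofLp) i ^ 2 = r ^ 2 * ∑ i, (ω : E) i ^ 2 := by
        rw [Finset.mul_sum]
        refine Finset.sum_congr rfl fun i _ => ?_
        simp only [Pi.smul_apply, smul_eq_mul]
        ring
      rw [this, sp_sum, mul_one]
    have g2 : ∑ i, w i * (r • (ω : E).ofLp) i = yy w ω * r := by
      unfold yy
      rw [Finset.sum_mul]
      refine Finset.sum_congr rfl fun i _ => ?_
      simp only [Pi.smul_apply, smul_eq_mul]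
      ring
    have g3 : r • (ω : E).ofLp ∈ A ↔ r ≤ S := by
      rw [hAdef, mem_ofPred_eq, g1, g2, ← hcd r hr0]
      constructor
      · exact fun h => h.2
      · exact fun h => ⟨(hcone r _ hr0).2 hω, h⟩
    by_cases hrS : r ≤ S
    · rw [indicator_of_mem (g3.2 hrS), indicator_of_mem (show r ∈ Iic S from hrS), g1]
    · rw [indicator_of_notMem (fun h => hrS (g3.1 h)),
        indicator_of_notMem (show r ∉ Iic S from hrS), mul_zero]
  · rw [indicator_of_notMem hω]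
    have : ∀ r ∈ Ioi (0 : ℝ), ENNReal.ofReal (r ^ 5) *
        A.indicator (fun z => ENNReal.ofReal (1 / Real.sqrt (1 + ∑ j, z j ^ 2)))
          (r • (ω : E).ofLp) = 0 := by
      intro r hr
      rw [indicator_of_notMem, mul_zero]
      intro h
      exact hω ((hcone r _ hr).1 h.1)
    rw [setLIntegral_congr_fun measurableSet_Ioi this]
    simp

lemma vol_eq (hC : MeasurableSet C)
    (hcone : ∀ (s : ℝ) (z : Fin 6 → ℝ), 0 < s → (s • z ∈ C ↔ z ∈ C)) :
    volume {z : Fin 6 → ℝ | z ∈ C ∧ ∑ i, z i ^ 2 < 1} = ENNReal.ofReal (1 / 6) * σ (Cd C) := by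
  set A : Set (Fin 6 → ℝ) := {z | z ∈ C ∧ ∑ i, z i ^ 2 < 1} with hAdef
  have hA : MeasurableSet A := hC.inter (measurableSet_lt (f := fun z : Fin 6 → ℝ => ∑ i, z i ^ 2)
    (g := fun _ => 1) (by fun_prop) measurable_const)
  rw [← lintegral_indicator_one hA, polar' (measurable_one.indicator hA),
    ← lintegral_indicator_const (Cd_meas C hC)]
  refine lintegral_congr fun ω => ?_
  by_cases hω : ω ∈ Cd C
  · rw [indicator_of_mem hω, ← radial_one]
    have e : ∫⁻ r in Ioo (0 : ℝ) 1, ENNReal.ofReal (r ^ 5) =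
        ∫⁻ r in Ioi 0, (Iio 1).indicator (fun r : ℝ => ENNReal.ofReal (r ^ 5)) r := by
      rw [lintegral_indicator measurableSet_Iio, Measure.restrict_restrict measurableSet_Iio,
        Iio_inter_Ioi]
    rw [e]
    refine setLIntegral_congr_fun measurableSet_Ioi fun r hr => ?_
    have hr0 : 0 < r := hr
    have g1 : ∑ i, (r • (ω : E).ofLp) i ^ 2 = r ^ 2 := by
      have : ∑ i, (r • (ω : E).ofLp) i ^ 2 = r ^ 2 * ∑ i, (ω : E) i ^ 2 := by
        rw [Finset.mul_sum]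
        refine Finset.sum_congr rfl fun i _ => ?_
        simp only [Pi.smul_apply, smul_eq_mul]
        ring
      rw [this, sp_sum, mul_one]
    have g3 : r • (ω : E).ofLp ∈ A ↔ r < 1 := by
      rw [hAdef, mem_ofPred_eq, g1]
      constructor
      · exact fun h => by nlinarith [h.2]
      · exact fun h => ⟨(hcone r _ hr0).2 hω, by nlinarith⟩
    by_cases hrS : r < 1
    · rw [indicator_of_mem (g3.2 hrS), indicator_of_mem (show r ∈ Iio 1 from hrS), Pi.one_apply,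
        mul_one]
    · rw [indicator_of_notMem (fun h => hrS (g3.1 h)),
        indicator_of_notMem (show r ∉ Iio 1 from hrS), mul_zero]
  · rw [indicator_of_notMem hω]
    have : ∀ r ∈ Ioi (0 : ℝ), ENNReal.ofReal (r ^ 5) *
        A.indicator (1 : (Fin 6 → ℝ) → ℝ≥0∞) (r • (ω : E).ofLp) = 0 := by
      intro r hr
      rw [indicator_of_notMem, mul_zero]
      intro h
      exact hω ((hcone r _ hr).1 h.1)
    rw [setLIntegral_congr_fun measurableSet_Ioi this]
    simp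

end

theorem main : Pool.Agent.W438.RA.S_pol := by
  intro c w hc hcw C hC hcone
  have hc1 : 1 ≤ c := by
    have h1 : 0 ≤ ∑ i, w i ^ 2 := Finset.sum_nonneg fun i _ => sq_nonneg _
    nlinarith
  set D : Sp → ℝ := fun ω => c ^ 2 - yy w ω ^ 2 with hD
  have hDc : Continuous D := by
    have := yy_cont w
    rw [hD]; fun_prop
  have hD1 : ∀ ω, 1 ≤ D ω := yy_D c w hcw
  have hD0 : ∀ ω, D ω ≠ 0 := fun ω => by have := hD1 ω; positivity
  set al : Sp → ℝ := fun ω => c / D ω with hal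
  set be : Sp → ℝ := fun ω => yy w ω / D ω with hbe
  have halc : Continuous al := continuous_const.div hDc hD0
  have hbec : Continuous be := (yy_cont w).div hDc hD0
  have hp4 : Continuous (fun ω => p4 (al ω) (be ω)) := by unfold p4; fun_prop
  have hp2 : Continuous (fun ω => p2 (al ω) (be ω) (D ω)) := by unfold p2; fun_prop
  have hp0 : Continuous (fun ω => p0 (be ω) (D ω)) := by unfold p0; fun_prop
  have hfa : Continuous (fun ω => fa (al ω) (be ω)) := by unfold fa p4; fun_prop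
  have hfb : Continuous (fun ω => fb (al ω) (be ω) (D ω)) := by unfold fb p2 p4; fun_prop
  have hfd : Continuous (fun ω => fd (al ω) (be ω) (D ω)) := by unfold fd p0 p2 p4; fun_prop
  have bdd : ∀ f : Sp → ℝ, Continuous f → ∃ P, ∀ ω, |f ω| ≤ P := by
    intro f hf
    obtain ⟨P, hP⟩ := isCompact_univ.exists_bound_of_continuousOn (f := f) hf.continuousOn
    exact ⟨P, fun ω => hP ω (mem_univ _)⟩
  have integ : ∀ f : Sp → ℝ, Continuous f → Integrable f (σ.restrict (Cd C)) := by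
    intro f hf
    obtain ⟨P, hP⟩ := bdd f hf
    exact Integrable.of_bound hf.aestronglyMeasurable P (ae_of_all _ hP)
  obtain ⟨P4, hP4⟩ := bdd _ hp4
  obtain ⟨P2, hP2⟩ := bdd _ hp2
  obtain ⟨P0, hP0⟩ := bdd _ hp0
  set P := max P4 (max P2 P0) with hP
  set B := c ^ 2 with hB
  refine ⟨∫ ω in Cd C, fa (al ω) (be ω) ∂σ, ∫ ω in Cd C, fb (al ω) (be ω) (D ω) ∂σ,
    ∫ ω in Cd C, fd (al ω) (be ω) (D ω) ∂σ, ?_⟩
  have hvol : -(16 / 5) * (volume {z : Fin 6 → ℝ | z ∈ C ∧ ∑ i, z i ^ 2 < 1}).toReal =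
      ∫ ω in Cd C, (-(8 / 15) : ℝ) ∂σ := by
    rw [vol_eq C hC hcone, ENNReal.toReal_mul, ENNReal.toReal_ofReal (by norm_num),
      setIntegral_const, smul_eq_mul, measureReal_def]
    ring
  rw [hvol, tendsto_iff_norm_sub_tendsto_zero]
  have hlim : Tendsto (fun U : ℝ => (P * (B + 2 * B ^ 2 + 3 * B ^ 3) * σ.real (Cd C)) / U) atTop
      (𝓝 0) := tendsto_const_nhds.div_atTop tendsto_id
  refine squeeze_zero' (Eventually.of_forall fun U => norm_nonneg _) ?_ hlim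
  filter_upwards [eventually_ge_atTop c] with U hU
  have hU1 : 1 ≤ U := hc1.trans hU
  set V : Sp → ℝ := fun ω => al ω * U + be ω * Real.sqrt (U ^ 2 - D ω) with hV
  have hVc : Continuous V := by rw [hV]; fun_prop
  have hQc : Continuous (fun ω => Q0 (V ω)) := by unfold Q0; fun_prop
  have hnn : ∀ ω, 0 ≤ Q0 (V ω) - 8 / 15 := by
    intro ω
    obtain ⟨f1, f2⟩ := sm_facts c (yy w ω) U hc (hD1 ω) hU
    have := (radial_int _ f1).2
    rw [f2] at this
    exact this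
  have hreal : (Pool.Agent.W438.RA.hm {z | z ∈ C ∧
      c * Real.sqrt (1 + ∑ i, z i ^ 2) - ∑ i, w i * z i ≤ U}).toReal =
      ∫ ω in Cd C, (Q0 (V ω) - 8 / 15) ∂σ := by
    rw [hm_eq c w C hc hcw hC hcone U hU, integral_eq_lintegral_of_nonneg_ae]
    · exact ae_of_all _ hnn
    · exact (hQc.sub continuous_const).aestronglyMeasurable
  rw [hreal]
  have hcomb : ∫ ω in Cd C, (Q0 (V ω) - 8 / 15) ∂σ -
      ((∫ ω in Cd C, fa (al ω) (be ω) ∂σ) * U ^ 5 + (∫ ω in Cd C, fb (al ω) (be ω) (D ω) ∂σ) * U ^ 3 +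
        (∫ ω in Cd C, fd (al ω) (be ω) (D ω) ∂σ) * U) - ∫ ω in Cd C, (-(8 / 15) : ℝ) ∂σ =
      ∫ ω in Cd C, (Q0 (V ω) - (fa (al ω) (be ω) * U ^ 5 + fb (al ω) (be ω) (D ω) * U ^ 3 +
        fd (al ω) (be ω) (D ω) * U)) ∂σ := by
    have i1 := integ _ hQc
    have i2 := (integ _ hfa).mul_const (U ^ 5)
    have i3 := (integ _ hfb).mul_const (U ^ 3)
    have i4 := (integ _ hfd).mul_const U
    have i5 := integ (fun _ => (8 / 15 : ℝ)) continuous_const
    have i6 := integ (fun _ => (-(8 / 15) : ℝ)) continuous_const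
    have i23 : Integrable (fun x => fa (al x) (be x) * U ^ 5 + fb (al x) (be x) (D x) * U ^ 3)
      (σ.restrict (Cd C)) := i2.add i3
    have i234 : Integrable (fun x => fa (al x) (be x) * U ^ 5 + fb (al x) (be x) (D x) * U ^ 3 +
      fd (al x) (be x) (D x) * U) (σ.restrict (Cd C)) := i23.add i4
    rw [integral_sub i1 i234, integral_add i23 i4, integral_add i2 i3,
      integral_mul_const, integral_mul_const, integral_mul_const, integral_sub i1 i5,
      integral_neg]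
    ring
  rw [hcomb]
  have hbd : ∀ ω, ‖Q0 (V ω) - (fa (al ω) (be ω) * U ^ 5 + fb (al ω) (be ω) (D ω) * U ^ 3 +
        fd (al ω) (be ω) (D ω) * U)‖ ≤ P * (B + 2 * B ^ 2 + 3 * B ^ 3) / U := by
    intro ω
    have hDU : D ω ≤ U ^ 2 := by
      have h1 : c ^ 2 ≤ U ^ 2 := pow_le_pow_left₀ hc.le hU 2
      have h2 : D ω ≤ c ^ 2 := by rw [hD]; nlinarith [sq_nonneg (yy w ω)]
      linarith
    have hDB : D ω ≤ B := by rw [hD, hB]; nlinarith [sq_nonneg (yy w ω)]
    have := expansion (al ω) (be ω) (D ω) U (Real.sqrt (U ^ 2 - D ω)) P B (Real.sqrt_nonneg _)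
      (Real.sq_sqrt (by linarith)) hU1 (by have := hD1 ω; linarith) hDU hDB
      ((hP4 ω).trans (le_max_left _ _))
      ((hP2 ω).trans ((le_max_left _ _).trans (le_max_right _ _)))
      ((hP0 ω).trans ((le_max_right _ _).trans (le_max_right _ _)))
    exact this
  have hfin : σ (Cd C) < ⊤ := measure_lt_top _ _
  refine (norm_setIntegral_le_of_norm_le_const hfin (fun ω _ => hbd ω)).trans (le_of_eq ?_)
  ring

end Pool.Agent.W503.RA
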